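import Pool.Agent.H93.CP.Targets

set_option autoImplicit false

namespace Pool.Agent.H27.CPT

open Set Filter Topology Pool.Agent.H93.CP

theorem pf_PTR (hNES : T_NES) (hPWD : T_PWD) : T_PTR := by
  intro G X _ _ _ _ H C r r' b z y hb hrep hfin hPt
  obtain ⟨-, hprD, -, -, -, hsub, -⟩ := hNES G X H C
  obtain ⟨-, -, -, -, -, -, hfinapp, -⟩ := hPWD G C.gr
  obtain ⟨hr, hr', ht⟩ := hrep
  have key : ∀ t : List C.gr.E, C.gr.Mem (r ++ t) b →
      (C.prD r' * (C.prD r)⁻¹) • y ∈ C.W (r' ++ t) := by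
    intro t h
    obtain ⟨u, hu, huy⟩ := hPt _ h
    refine ⟨u, ?_, ?_⟩
    · rw [hfinapp, ← hfin, ← hfinapp]
      exact hu
    · have h1 : C.prD (r ++ t) • u = y := huy
      change C.prD (r' ++ t) • u = (C.prD r' * (C.prD r)⁻¹) • y
      rw [← h1, smul_smul, hprD, hprD]
      congr 1
      group
  intro w hw
  rcases z.2.lin w r' hw hr' with h | ⟨t, rfl⟩
  · have h1 := key [] (by simpa using hr)
    rw [List.append_nil] at h1
    exact hsub w r' (z.2.leg r' hr') h h1
  · exact key t ((ht t).1 hw)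

end Pool.Agent.H27.CPT
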