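import Pool.Agent.H93.CP.Targets
import Pool.Agent.H59.TV.Vaught

set_option autoImplicit false

namespace Pool.Agent.H27.CPT

open Set Filter Topology Pool.Agent.H93.CP

theorem pf_STM : T_STM := by
  intro G X _ _ _ _ _ _ _ _ _ _
  refine ⟨?_, ?_, ?_⟩
  · intro O U hO hU
    have hB : MeasurableSet {q : X × G | q.2 • q.1 ∉ O} := by
      have h1 : Measurable fun q : X × G => q.2 • q.1 :=
        measurable_snd.smul measurable_fst
      exact h1 hO.compl
    have h2 : Star O U = {x : X | Pool.Agent.H59.TV.NM {q : X × G | q.2 • q.1 ∉ O} U x}ᶜ := by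
      ext x
      change IsMeagre {g : G | g ∈ U ∧ g • x ∉ O} ↔
        ¬ ¬ IsMeagre ({g : G | g • x ∉ O} ∩ U)
      rw [not_not]
      have h3 : {g : G | g ∈ U ∧ g • x ∉ O} = {g : G | g • x ∉ O} ∩ U := by
        ext g
        exact and_comm
      rw [h3]
    rw [h2]
    exact (Pool.Agent.H59.TV.measurable_NM hB U hU).compl
  · intro A U hA
    ext x
    rw [mem_iInter₂]
    constructor
    · intro h O hO
      have h' : IsMeagre {g : G | g ∈ U ∧ g • x ∉ ⋂₀ A} := h
      refine h'.mono ?_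
      rintro g ⟨hg, hgO⟩
      exact ⟨hg, fun h' => hgO (h' O hO)⟩
    · intro h
      have h1 : {g : G | g ∈ U ∧ g • x ∉ ⋂₀ A} = ⋃ O ∈ A, {g : G | g ∈ U ∧ g • x ∉ O} := by
        ext g
        simp only [mem_iUnion, mem_ofPred_eq, mem_sInter, exists_prop]
        constructor
        · rintro ⟨hg, h2⟩
          push Not at h2
          obtain ⟨O, hO, h3⟩ := h2
          exact ⟨O, hO, hg, h3⟩
        · rintro ⟨O, hO, hg, h3⟩
          exact ⟨hg, fun h2 => h3 (h2 O hO)⟩
      change IsMeagre {g : G | g ∈ U ∧ g • x ∉ ⋂₀ A}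
      rw [h1]
      exact (isMeagre_biUnion hA) fun O hO => h O hO
  · intro O O' U U' hO hU x hx
    have hx' : IsMeagre {g : G | g ∈ U ∧ g • x ∉ O} := hx
    refine hx'.mono ?_
    rintro g ⟨hg, hgO⟩
    exact ⟨hU hg, fun h => hgO (hO h)⟩

end Pool.Agent.H27.CPT
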